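import Pool.Agent.Lib.MP_21b2a2_pr.Reduction

/-!
# Directional divergence of the critical Gaussian consensus process

The state at time `t` is a family `X t ω : Fin N → ℝ^d` of `N` rows.  Given the past, the rows of
`X (t + 1)` are independent, the `i`-th one being multivariate Gaussian with mean
`β X_i(t) + (1 - β) μ^X(t)` and covariance `ρ Cov^X(t)`, `ρ = α (1 - β)²`.  We prove that at
criticality, `λ₁(α, β, N) = 0`, almost surely `|u · X_i(t)| → ∞` for all `i` and
`|u · μ^X(t)| → ∞`, for every deterministic `u ≠ 0`.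
-/

open MeasureTheory ProbabilityTheory Filter Finset
open scoped Topology ENNReal NNReal RealInnerProductSpace Matrix

namespace Pool.Agent.Results.MP_21b2a2_pr.DirectionalDivergence

/-- The states: `N` rows in `ℝ^d`. -/
abbrev State (N d : ℕ) : Type := Fin N → EuclideanSpace ℝ (Fin d)

variable {N d : ℕ}

/-- The mean `μ^x = (1/N) ∑ₖ xₖ` of the rows. -/
noncomputable def mean (x : State N d) : EuclideanSpace ℝ (Fin d) := (1 / (N : ℝ)) • ∑ k, x k

/-- The `N × d` matrix with rows `xₖ - μ^x`. -/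
noncomputable def centered (x : State N d) : Matrix (Fin N) (Fin d) ℝ :=
  Matrix.of fun k a => (x k - mean x) a

/-- The empirical covariance matrix `Cov^x = (1/N) x̄ᵀ x̄`. -/
noncomputable def cov (x : State N d) : Matrix (Fin d) (Fin d) ℝ :=
  (1 / (N : ℝ)) • ((centered x)ᵀ * centered x)

/-- The law of the next state, given that the present one is `x`: the rows are independent, and the
`i`-th one is multivariate Gaussian with mean `β xᵢ + (1 - β) μ^x` and covariance
`α (1 - β)² Cov^x`. -/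
noncomputable def stepLaw (α β : ℝ) (x : State N d) : Measure (State N d) :=
  Measure.pi fun i =>
    multivariateGaussian (β • x i + (1 - β) • mean x) ((α * (1 - β) ^ 2) • cov x)

lemma measurable_mean : Measurable (mean : State N d → EuclideanSpace ℝ (Fin d)) := by
  unfold mean; fun_prop

lemma stepLaw_eq_map (α β : ℝ) (hα : 0 ≤ α) (x : State N d) :
    stepLaw α β x = (Measure.pi fun _ : Fin N => stdGaussian (EuclideanSpace ℝ (Fin N))).map
      (fun G i => (β • x i + (1 - β) • mean x) + √(α * (1 - β) ^ 2 / N) •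
        ∑ k, G i k • (x k - mean x)) := by
  have hρ : 0 ≤ α * (1 - β) ^ 2 := by positivity
  unfold stepLaw cov centered
  have h : ∀ i : Fin N, multivariateGaussian (β • x i + (1 - β) • mean x)
      ((α * (1 - β) ^ 2) • ((1 / (N : ℝ)) • ((Matrix.of fun k a => (x k - mean x) a)ᵀ *
        Matrix.of fun k a => (x k - mean x) a))) =
      (stdGaussian (EuclideanSpace ℝ (Fin N))).map
        (fun g => (β • x i + (1 - β) • mean x) + √(α * (1 - β) ^ 2 / N) •
          ∑ k, g k • (x k - mean x)) := fun i =>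
    Lib.MP_21b2a2_pr.multivariateGaussian_eq_map _ hρ _ _
  simp_rw [h]
  exact (Measure.pi_map_pi (μ := fun _ : Fin N => stdGaussian (EuclideanSpace ℝ (Fin N)))
    (f := fun i g => (β • x i + (1 - β) • mean x) + √(α * (1 - β) ^ 2 / N) •
      ∑ k, g k • (x k - mean x)) (fun i => by fun_prop)).symm

lemma measurable_stepLaw (α β : ℝ) (hα : 0 ≤ α) :
    Measurable (stepLaw α β : State N d → Measure (State N d)) := by
  have hm := measurable_mean (N := N) (d := d)
  have hF : Measurable (fun p : State N d × (Fin N → EuclideanSpace ℝ (Fin N)) =>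
      (fun i => (β • p.1 i + (1 - β) • mean p.1) + √(α * (1 - β) ^ 2 / N) •
        ∑ k, p.2 i k • (p.1 k - mean p.1) : State N d)) := by
    fun_prop
  refine Measure.measurable_of_measurable_coe _ fun s hs => ?_
  simp_rw [stepLaw_eq_map α β hα]
  have h2 : ∀ x : State N d, ((Measure.pi fun _ : Fin N =>
      stdGaussian (EuclideanSpace ℝ (Fin N))).map
      (fun G i => (β • x i + (1 - β) • mean x) + √(α * (1 - β) ^ 2 / N) •
        ∑ k, G i k • (x k - mean x))) s =
      (Measure.pi fun _ : Fin N => stdGaussian (EuclideanSpace ℝ (Fin N)))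
        (Prod.mk x ⁻¹' ((fun p : State N d × (Fin N → EuclideanSpace ℝ (Fin N)) =>
      (fun i => (β • p.1 i + (1 - β) • mean p.1) + √(α * (1 - β) ^ 2 / N) •
        ∑ k, p.2 i k • (p.1 k - mean p.1) : State N d)) ⁻¹' s)) := by
    intro x
    have hFx := hF.comp (measurable_prodMk_left (x := x))
    exact Measure.map_apply hFx hs
  simp_rw [h2]
  exact measurable_measure_prodMk_left (hF hs)

/-- The transition kernel of the Gaussian consensus process. -/
noncomputable def stepKernel (N d : ℕ) (α β : ℝ) (hα : 0 ≤ α) :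
    Kernel (State N d) (State N d) where
  toFun := stepLaw α β
  measurable' := measurable_stepLaw α β hα

/-- `X` is a Gaussian consensus process with parameters `α`, `β` under `P`: for every `t`, the
conditional law of `X (t + 1)` given `(X 0, …, X t)` is `stepLaw α β (X t)`. -/
structure IsGaussianConsensus {Ω : Type*} [MeasurableSpace Ω] (α β : ℝ) (hα : 0 ≤ α)
    (X : ℕ → Ω → State N d) (P : Measure Ω) : Prop where
  measurable : ∀ t, Measurable (X t)
  markov : ∀ t, HasCondDistrib (X (t + 1)) (fun ω (s : Fin (t + 1)) => X s ω)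
    ((stepKernel N d α β hα).comap (fun h : Fin (t + 1) → State N d => h (Fin.last t))
      (measurable_pi_apply (Fin.last t))) P

/-- The real digamma function `ψ = Γ' / Γ`. -/
noncomputable def digamma (x : ℝ) : ℝ := deriv Real.Gamma x / Real.Gamma x

/-- `φ_m(x) = e^{-x} ∑ⱼ (x^j / j!) ψ(j + m)`. -/
noncomputable def phi (m x : ℝ) : ℝ :=
  Real.exp (-x) * ∑' j : ℕ, x ^ j / (Nat.factorial j : ℝ) * digamma (j + m)

/-- `λ₁(α, β, N) = (1/2) (φ_{(N-1)/2}(N β² / (2ρ)) + log (2ρ / N))`, with `ρ = α (1 - β)²`. -/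
noncomputable def lyap (α β : ℝ) (N : ℕ) : ℝ :=
  1 / 2 * (phi (((N : ℝ) - 1) / 2) (N * β ^ 2 / (2 * (α * (1 - β) ^ 2))) +
    Real.log (2 * (α * (1 - β) ^ 2) / N))

/-- the vector `(u · x_i)_i` -/
noncomputable def proj (u : EuclideanSpace ℝ (Fin d)) (x : State N d) :
    EuclideanSpace ℝ (Fin N) := WithLp.toLp 2 (fun i => ⟪u, x i⟫)

lemma measurable_proj (u : EuclideanSpace ℝ (Fin d)) :
    Measurable (proj u : State N d → EuclideanSpace ℝ (Fin N)) := by
  unfold proj; fun_prop

lemma inner_mean (u : EuclideanSpace ℝ (Fin d)) (x : State N d) :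
    ⟪u, mean x⟫ = (1 / (N : ℝ)) * ∑ k, proj u x k := by
  unfold mean proj
  rw [inner_smul_right, inner_sum]

lemma cov_quad (u : EuclideanSpace ℝ (Fin d)) (x : State N d) :
    u ⬝ᵥ (cov x) *ᵥ u = (1 / (N : ℝ)) *
      ∑ i, (proj u x i - (1 / (N : ℝ)) * ∑ k, proj u x k) ^ 2 := by
  unfold cov
  rw [Matrix.smul_mulVec, dotProduct_smul, smul_eq_mul]
  congr 1
  rw [← Matrix.mulVec_mulVec, Matrix.dotProduct_mulVec, Matrix.vecMul_transpose]
  simp only [dotProduct]
  apply Finset.sum_congr rfl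
  intro k _
  rw [sq]
  have h3 : proj u x k - (1 / (N : ℝ)) * ∑ k, proj u x k = (centered x *ᵥ u) k := by
    rw [← inner_mean]
    have h4 : proj u x k = ⟪u, x k⟫ := rfl
    rw [h4, ← inner_sub_right]
    simp only [centered, Matrix.mulVec, dotProduct, Matrix.of_apply]
    rw [PiLp.inner_apply]
    apply Finset.sum_congr rfl
    intro a _
    simp
  rw [h3]

lemma posSemidef_cov (x : State N d) : (cov x).PosSemidef := by
  unfold cov
  apply Matrix.PosSemidef.smul _ (by positivity)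
  have := Matrix.posSemidef_conjTranspose_mul_self (centered x)
  rwa [Matrix.conjTranspose_eq_transpose_of_trivial] at this

/-- the projected one-step law is that of the scalar chain -/
lemma map_proj_stepLaw (hN : 0 < N) (α β : ℝ) (hα : 0 ≤ α) (u : EuclideanSpace ℝ (Fin d))
    (x : State N d) :
    (stepLaw α β x).map (proj u) = (stdGaussian (EuclideanSpace ℝ (Fin N))).map
      (Lib.MP_21b2a2_pr.stepMap (Lib.MP_21b2a2_pr.cst N) β (√(α * (1 - β) ^ 2 / N)) (proj u x)) := by
  have hρ : 0 ≤ α * (1 - β) ^ 2 := by positivity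
  have hN' : (0:ℝ) < N := by exact_mod_cast hN
  rw [Lib.MP_21b2a2_pr.map_stepMap_cst hN]
  have h1 : (proj u : State N d → EuclideanSpace ℝ (Fin N)) =
      (WithLp.toLp 2) ∘ (fun x : State N d => fun i => ⟪u, x i⟫) := rfl
  rw [h1, ← Measure.map_map (by fun_prop) (by fun_prop)]
  congr 1
  unfold stepLaw
  rw [Measure.pi_map_pi (fun i => by fun_prop)]
  congr 1
  ext1 i
  have hS : ((α * (1 - β) ^ 2) • cov x).PosSemidef := (posSemidef_cov x).smul hρ
  rw [Lib.MP_21b2a2_pr.multivariateGaussian_map_inner u _ hS, inner_add_right, inner_smul_right,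
    inner_smul_right, inner_mean]
  congr 1
  apply NNReal.eq
  rw [Matrix.smul_mulVec, dotProduct_smul, smul_eq_mul, cov_quad, Real.coe_toNNReal _ (by positivity)]
  show _ = (√(α * (1 - β) ^ 2 / N) * ‖_‖) ^ 2
  rw [mul_pow, Real.sq_sqrt (by positivity), Lib.MP_21b2a2_pr.norm_pr_cst_sq hN]
  simp only [Function.comp_apply]
  ring_nf
  rfl

lemma isChain_proj {Ω : Type*} [MeasurableSpace Ω] {P : Measure Ω} [IsProbabilityMeasure P]
    (hN : 0 < N) {α β : ℝ} {hα : 0 ≤ α} {X : ℕ → Ω → State N d}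
    (hX : IsGaussianConsensus α β hα X P) (u : EuclideanSpace ℝ (Fin d)) :
    Lib.MP_21b2a2_pr.IsChain (Lib.MP_21b2a2_pr.cst N) β (√(α * (1 - β) ^ 2 / N)) P
      (fun t ω => proj u (X t ω)) := by
  have hmp := measurable_proj (N := N) u
  have hmX := hX.measurable
  refine ⟨fun t => hmp.comp (hX.measurable t), fun t F hF => ?_⟩
  have h1 := hX.markov t
  have hK : IsSFiniteKernel ((stepKernel N d α β hα).comap
      (fun h : Fin (t + 1) → State N d => h (Fin.last t)) (measurable_pi_apply (Fin.last t))) := by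
    have : IsMarkovKernel (stepKernel N d α β hα) := by
      refine ⟨fun x => ?_⟩
      show IsProbabilityMeasure (stepLaw α β x)
      unfold stepLaw
      infer_instance
    infer_instance
  set G : (Fin (t + 1) → State N d) × State N d → ℝ≥0∞ :=
    fun p => F (fun s => proj u (p.1 s), proj u p.2) with hG
  have hGm : Measurable G := by
    rw [hG]; fun_prop
  have h2 : ∫⁻ ω, F (fun s : Fin (t + 1) => proj u (X s ω), proj u (X (t + 1) ω)) ∂P =
      ∫⁻ p, G p ∂(P.map (fun ω => ((fun s : Fin (t + 1) => X s ω), X (t + 1) ω))) := by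
    rw [lintegral_map hGm (by fun_prop)]
  rw [h2, h1.map_eq, Measure.lintegral_compProd hGm, lintegral_map (by fun_prop) (by fun_prop)]
  apply lintegral_congr
  intro ω
  rw [Kernel.comap_apply]
  show ∫⁻ y, G ((fun s : Fin (t + 1) => X s ω), y) ∂(stepLaw α β (X (Fin.last t : ℕ) ω)) = _
  have h3 : ∀ y : State N d, G ((fun s : Fin (t + 1) => X s ω), y) =
      (fun q : EuclideanSpace ℝ (Fin N) => F (fun s : Fin (t + 1) => proj u (X s ω), q))
        (proj u y) := fun y => rfl
  simp_rw [h3]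
  rw [← lintegral_map (μ := stepLaw α β (X (Fin.last t : ℕ) ω))
    (f := fun q : EuclideanSpace ℝ (Fin N) => F (fun s : Fin (t + 1) => proj u (X s ω), q))
    (by fun_prop) hmp, map_proj_stepLaw hN α β hα u, lintegral_map (by fun_prop) (by fun_prop)]
  rfl

/-- **Directional divergence at criticality.**  If `λ₁(α, β, N) = 0` then, for every Gaussian
consensus process with almost surely positive definite initial covariance and every deterministic
vector `u ≠ 0`, almost surely `|u · X_i(t)| → ∞` for all `i` and `|u · μ^X(t)| → ∞`. -/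
theorem result {N d : ℕ} (hN : 2 ≤ N) (hd : 1 ≤ d) (hNd : d + 1 ≤ N) {α β : ℝ} (hα : 0 < α)
    (hβ0 : 0 ≤ β) (hβ1 : β < 1) (hcrit : lyap α β N = 0)
    {Ω : Type*} [MeasurableSpace Ω] (P : Measure Ω) [IsProbabilityMeasure P]
    (X : ℕ → Ω → State N d) (hX : IsGaussianConsensus α β hα.le X P)
    (hX0 : ∀ᵐ ω ∂P, (cov (X 0 ω)).PosDef)
    (u : EuclideanSpace ℝ (Fin d)) (hu : u ≠ 0) :
    ∀ᵐ ω ∂P, (∀ i, Tendsto (fun t => |⟪u, X t ω i⟫|) atTop atTop) ∧
      Tendsto (fun t => |⟪u, mean (X t ω)⟫|) atTop atTop := by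
  obtain ⟨m, rfl⟩ : ∃ m, N = m + 2 := ⟨N - 2, by omega⟩
  have hN0 : 0 < m + 2 := by omega
  have hNr : (0:ℝ) < ((m + 2 : ℕ) : ℝ) := by exact_mod_cast hN0
  have hβ : 0 < 1 - β := by linarith
  set c := √(α * (1 - β) ^ 2 / ((m + 2 : ℕ) : ℝ)) with hc
  have hc0 : 0 < c := by rw [hc]; positivity
  have hc2 : c ^ 2 = α * (1 - β) ^ 2 / ((m + 2 : ℕ) : ℝ) := by
    rw [hc, Real.sq_sqrt (by positivity)]
  have hchain := isChain_proj hN0 hX u
  have hE : Module.finrank ℝ (EuclideanSpace ℝ (Fin (m + 2))) = m + 2 := by simp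
  have hf := Lib.MP_21b2a2_pr.norm_cst hN0
  obtain ⟨e, he, hfe⟩ := Lib.MP_21b2a2_pr.exists_unit_orthogonal hE _ hf
  have h0 : ∀ᵐ ω ∂P, Lib.MP_21b2a2_pr.pr (Lib.MP_21b2a2_pr.cst (m + 2)) (proj u (X 0 ω)) ≠ 0 := by
    filter_upwards [hX0] with ω hω hzero
    have h1 := Lib.MP_21b2a2_pr.norm_pr_cst_sq hN0 (proj u (X 0 ω))
    rw [hzero] at h1
    have h2 := cov_quad u (X 0 ω)
    rw [← h1] at h2
    have hu' : (u : Fin d → ℝ) ≠ 0 := by
      intro h; apply hu; ext i; exact congrFun h i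
    have h3 := hω.dotProduct_mulVec_pos hu'
    simp only [star_trivial] at h3
    rw [h2] at h3
    simp at h3
  have hmean : 0 ≤ ∫ v, v ∂(Lib.MP_21b2a2_pr.incLaw (Lib.MP_21b2a2_pr.cst (m + 2)) e β c) := by
    rw [Lib.MP_21b2a2_pr.integral_incLaw hE _ e hf he hfe β c hc0]
    apply le_of_eq
    rw [← hcrit]
    unfold lyap
    have e1 : (((m + 2 : ℕ) : ℝ) - 1) / 2 = ((m : ℝ) + 1) / 2 := by push_cast; ring
    have e2 : ((m + 2 : ℕ) : ℝ) * β ^ 2 / (2 * (α * (1 - β) ^ 2)) = (β / c) ^ 2 / 2 := by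
      rw [div_pow, hc2]; field_simp
    have e3 : 2 * (α * (1 - β) ^ 2) / ((m + 2 : ℕ) : ℝ) = 2 * c ^ 2 := by
      rw [hc2]; ring
    rw [e1, e2, e3]
    rfl
  have hL2 := Lib.MP_21b2a2_pr.memLp_incLaw hE _ e hf he hfe β c hc0
  have hvar := Lib.MP_21b2a2_pr.variance_incLaw hE _ e hf he hfe β c hc0
  have hmain := fun (ℓ : EuclideanSpace ℝ (Fin (m + 2)) →L[ℝ] ℝ)
      (hℓ : ℓ (Lib.MP_21b2a2_pr.cst (m + 2)) ≠ 0) =>
    hchain.tendsto hf hc0 e he hfe h0 hL2 hmean hvar ℓ hℓ
  have hcst : ∀ i, (Lib.MP_21b2a2_pr.cst (m + 2)) i = 1 / √((m + 2 : ℕ) : ℝ) := fun i => rfl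
  have hsq : 0 < √((m + 2 : ℕ) : ℝ) := by positivity
  have hA : ∀ i, ∀ᵐ ω ∂P, Tendsto (fun t => |⟪u, X t ω i⟫|) atTop atTop := by
    intro i
    have := hmain (EuclideanSpace.proj i) (by
      show Lib.MP_21b2a2_pr.cst (m + 2) i ≠ 0
      rw [hcst]; positivity)
    filter_upwards [this] with ω hω
    exact hω
  have hB : ∀ᵐ ω ∂P, Tendsto (fun t => |⟪u, mean (X t ω)⟫|) atTop atTop := by
    have := hmain ((1 / ((m + 2 : ℕ) : ℝ)) • ∑ i, EuclideanSpace.proj i) (by
      rw [ContinuousLinearMap.smul_apply, ContinuousLinearMap.sum_apply]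
      have h1 : ∀ i : Fin (m + 2), (EuclideanSpace.proj i :
          EuclideanSpace ℝ (Fin (m + 2)) →L[ℝ] ℝ) (Lib.MP_21b2a2_pr.cst (m + 2)) =
          1 / √((m + 2 : ℕ) : ℝ) := fun i => rfl
      simp_rw [h1]
      rw [Finset.sum_const, Finset.card_univ, Fintype.card_fin, nsmul_eq_mul, smul_eq_mul]
      positivity)
    filter_upwards [this] with ω hω
    have h1 : ∀ t, ⟪u, mean (X t ω)⟫ = ((1 / ((m + 2 : ℕ) : ℝ)) •
        ∑ i, (EuclideanSpace.proj i : EuclideanSpace ℝ (Fin (m + 2)) →L[ℝ] ℝ))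
        (proj u (X t ω)) := by
      intro t
      rw [inner_mean]
      simp
    simp_rw [h1]
    exact hω
  filter_upwards [ae_all_iff.2 hA, hB] with ω h1 h2
  exact ⟨h1, h2⟩

end Pool.Agent.Results.MP_21b2a2_pr.DirectionalDivergence
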